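import Pool.Agent.N637.SLX.Stm2
import Pool.Agent.N916.AM.Red

/-!
# Project SLX (helper637): the criterion satisfies the hypothesis of the machine
-/

set_option autoImplicit false
set_option linter.all false

open scoped Classical

namespace Pool.Agent.N327.SLX

open Finset Filter
open Pool.Agent.Y703.CQ (nr sg)
open Pool.Agent.N973.ND (uu nr_rec nr_self)
open Pool.Agent.N916.GB (Po ps sx pt Vt sy)
open Pool.Agent.N916.AM (LAH LAV Nd Rich Bs sub_Bs nr_Bs uu_mod nr_mod)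
open Pool.Agent.N958.GB (lb rr rr_inj rr_im NR sgm two_tuples rec_NR ud wd z2 mem_Vt
  Vt_sub sy_ne)
open Pool.Agent.N637.SLX

/-! ### transport -/

theorem islk_equiv {V W : Type} [Fintype V] [Fintype W] (φ : V ≃ W) (N : W → W → ZMod 2)
    (y : W → ZMod 2) : IsLk (fun i j => N (φ i) (φ j)) (y ∘ φ) ↔ IsLk N y := by
  have h : ∀ p : V, ∑ q, ((y ∘ φ) q * N (φ q) (φ p) + (y ∘ φ) p * N (φ p) (φ q)) =
      ∑ q, (y q * N q (φ p) + y (φ p) * N (φ p) q) := fun p =>
    Equiv.sum_comp φ (fun q => y q * N q (φ p) + y (φ p) * N (φ p) q)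
  constructor
  · intro H p
    obtain ⟨p', rfl⟩ := φ.surjective p
    rw [← h]
    exact H p'
  · intro H p
    exact (h p).trans (H _)

theorem bf_equiv {V W : Type} [Fintype V] [Fintype W] (φ : V ≃ W) (e y z : W → ZMod 2) :
    Bf (fun i => e (φ i)) (y ∘ φ) (z ∘ φ) = Bf e y z := by
  unfold Bf
  have h1 := Equiv.sum_comp φ (fun q => e q * y q)
  have h2 := Equiv.sum_comp φ (fun q => e q * z q)
  have h3 := Equiv.sum_comp φ (fun q => e q * y q * z q)
  rw [← h1, ← h2, ← h3]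
  rfl

theorem israd_equiv {V W : Type} [Fintype V] [Fintype W] (φ : V ≃ W) (N : W → W → ZMod 2)
    (e y : W → ZMod 2) :
    IsRad (fun i j => N (φ i) (φ j)) (fun i => e (φ i)) (y ∘ φ) ↔ IsRad N e y := by
  unfold IsRad
  rw [islk_equiv]
  refine and_congr_right fun _ => ?_
  constructor
  · intro H z hz
    rw [← bf_equiv φ]
    exact H _ ((islk_equiv φ N z).2 hz)
  · intro H z hz
    have h1 : z = (z ∘ φ.symm) ∘ φ := by
      funext i
      simp
    rw [h1] at hz ⊢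
    rw [bf_equiv]
    exact H _ ((islk_equiv φ N _).1 hz)

theorem card_equiv {V W : Type} [Fintype V] [Fintype W] (φ : V ≃ W) (P : (V → ZMod 2) → Prop) :
    (univ.filter P).card = (univ.filter fun y : W → ZMod 2 => P (y ∘ φ)).card := by
  symm
  refine card_bij (fun y _ => y ∘ φ) ?_ ?_ ?_
  · intro y hy
    exact mem_filter.2 ⟨mem_univ _, (mem_filter.1 hy).2⟩
  · intro y _ y' _ h
    exact φ.surjective.injective_comp_right h
  · intro z hz
    have h1 : (z ∘ φ.symm) ∘ φ = z := by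
      funext i
      simp
    refine ⟨z ∘ φ.symm, mem_filter.2 ⟨mem_univ _, ?_⟩, h1⟩
    rw [h1]
    exact (mem_filter.1 hz).2

theorem crit_equiv {V W : Type} [Fintype V] [Fintype W] (φ : V ≃ W) (N : W → W → ZMod 2)
    (e : W → ZMod 2) (r j : ℕ) :
    Crit (fun i j => N (φ i) (φ j)) (fun i => e (φ i)) r j ↔ Crit N e r j := by
  unfold Crit
  rw [card_equiv φ, card_equiv φ]
  simp_rw [islk_equiv, israd_equiv]

/-! ### the labels -/

/-- the labels of a tuple -/
noncomputable def eR (r s : ZMod 2) {V : Type} [Fintype V] (ρ : V → ℕ) (x : V) : ZMod 2 :=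
  if ρ x = 7 then ∑ y, sy r s 7 (ρ y) else nr 7 (ρ x)

theorem sy77 (r s : ZMod 2) : sy r s 7 7 = 0 := by
  rw [sy_ne r s (by norm_num), nr_self]

theorem eS_eq {V : Type} [Fintype V] (t : Bool) (r s : ZMod 2) {ρ : V → ℕ}
    (hρ : Function.Injective ρ) {S : Finset ℕ} (hS : univ.image ρ = Vt t S) (x : V) :
    eS t r s S (ρ x) = eR r s ρ x := by
  unfold eS eR
  by_cases h : ρ x = 7
  · rw [if_pos h, if_pos h, Finset.sum_erase _ (sy77 r s), ← hS,
      sum_image fun i _ j _ h => hρ h]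
  · rw [if_neg h, if_neg h]

theorem Gj_iff {V : Type} [Fintype V] (t : Bool) (r s : ZMod 2) (a b : ℕ) {ρ : V → ℕ}
    (hρ : Function.Injective ρ) {S : Finset ℕ} (hS : univ.image ρ = Vt t S) :
    GjS t r s a b S ↔ Crit (NR r s ρ) (eR r s ρ) a b := by
  have h1 : ∀ i, ρ i ∈ Vt t S := fun i => by
    rw [← hS]
    exact mem_image_of_mem _ (mem_univ _)
  have hb : Function.Bijective (fun i => (⟨ρ i, h1 i⟩ : {x : ℕ // x ∈ Vt t S})) := by
    constructor
    · intro i j h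
      exact hρ (congrArg Subtype.val h)
    · rintro ⟨x, hx⟩
      rw [← hS, mem_image] at hx
      obtain ⟨i, -, hi⟩ := hx
      exact ⟨i, Subtype.ext hi⟩
  have h2 := crit_equiv (Equiv.ofBijective _ hb) (NS t r s S) (ES t r s S) a b
  unfold GjS
  rw [← h2]
  have h3 : (fun i : V => ES t r s S (Equiv.ofBijective _ hb i)) = eR r s ρ := by
    funext i
    exact eS_eq t r s hρ hS i
  rw [h3]
  rfl

/-! ### the symbols modulo `7` -/

theorem nr7 (n : ℕ) : nr 7 n = if (n % 7 = 3 ∨ n % 7 = 5 ∨ n % 7 = 6) then 1 else 0 := by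
  have h : ∀ x : ZMod 7, (∃ y : ZMod 7, x = y * y) ↔ ¬ (x = 3 ∨ x = 5 ∨ x = 6) := by decide
  have h1 : (n : ZMod 7) = ((n % 7 : ℕ) : ZMod 7) := by
    rw [ZMod.natCast_mod]
  have h2 : IsSquare (n : ZMod 7) ↔ ¬ (n % 7 = 3 ∨ n % 7 = 5 ∨ n % 7 = 6) := by
    unfold IsSquare
    rw [h, h1]
    have h3 : n % 7 < 7 := Nat.mod_lt _ (by norm_num)
    generalize n % 7 = m at h3
    revert m
    decide
  unfold nr
  by_cases h3 : (n % 7 = 3 ∨ n % 7 = 5 ∨ n % 7 = 6)
  · rw [if_neg (by rw [h2]; exact fun h => h h3), if_pos h3]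
  · rw [if_pos (by rw [h2]; exact h3), if_neg h3]

theorem nr7_mul {m n : ℕ} (hm : m % 7 ≠ 0) (hn : n % 7 ≠ 0) :
    nr 7 (m * n) = nr 7 m + nr 7 n := by
  rw [nr7, nr7, nr7, Nat.mul_mod]
  have h1 : m % 7 < 7 := Nat.mod_lt _ (by norm_num)
  have h2 : n % 7 < 7 := Nat.mod_lt _ (by norm_num)
  generalize m % 7 = a at *
  generalize n % 7 = b at *
  interval_cases a <;> interval_cases b <;> first | exact absurd rfl hm | exact absurd rfl hn | rfl

theorem nr7_prod (F : Finset ℕ) (hF : ∀ x ∈ F, x % 7 ≠ 0) :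
    (∏ x ∈ F, x) % 7 ≠ 0 ∧ nr 7 (∏ x ∈ F, x) = ∑ x ∈ F, nr 7 x := by
  induction F using Finset.induction_on with
  | empty =>
    rw [prod_empty, sum_empty]
    refine ⟨by norm_num, ?_⟩
    rw [nr7]
    rfl
  | insert a S ha ih =>
    obtain ⟨h1, h2⟩ := ih fun x hx => hF x (mem_insert_of_mem hx)
    have h3 := hF a (mem_insert_self a S)
    rw [prod_insert ha, sum_insert ha, nr7_mul h3 h1, h2]
    refine ⟨?_, rfl⟩
    intro h4
    rcases (Nat.prime_seven.dvd_mul).1 (Nat.dvd_of_mod_eq_zero h4) with h | h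
    · exact h3 (Nat.mod_eq_zero_of_dvd h)
    · exact h1 (Nat.mod_eq_zero_of_dvd h)

theorem rad_lem {V : Type} [Fintype V] (e w y : V → ZMod 2) (hew : ∀ x, e x * w x = e x)
    (h : (∑ x, e x = 1) ∨ ∑ x, e x * y x = 0) : Bf e w y = 0 := by
  unfold Bf
  have h1 : ∑ p, e p * w p * y p = ∑ p, e p * y p := sum_congr rfl fun p _ => by rw [hew]
  have h2 : ∑ p, e p * w p = ∑ p, e p := sum_congr rfl fun p _ => hew p
  rw [h1, h2]
  rcases h with h | h
  · rw [h, one_mul]
    exact CharTwo.add_self_eq_zero _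
  · rw [h, mul_zero, add_zero]

/-! ### the classes -/

theorem exists_cls {M : ℕ} (hM0 : 0 < M) (h28 : 28 ∣ M) {c : ℕ} (hc : c.Coprime 28) :
    ∃ a < M, a.Coprime M ∧ a % 28 = c % 28 := by
  have : NeZero M := ⟨hM0.ne'⟩
  obtain ⟨u, hu⟩ := ZMod.unitsMap_surjective h28 (ZMod.unitOfCoprime c hc)
  refine ⟨(u : ZMod M).val, ZMod.val_lt _, ZMod.val_coe_unit_coprime u, ?_⟩
  have h1 := congrArg (fun x : (ZMod 28)ˣ => (x : ZMod 28)) hu
  simp only [ZMod.coe_unitOfCoprime, ZMod.unitsMap_val] at h1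
  rw [← ZMod.natCast_val] at h1
  exact (ZMod.natCast_eq_natCast_iff' _ _ _).1 h1

theorem rich_cls {M V₀ : ℕ} (h28 : 28 ∣ M) (hM0 : 0 < M) {S₀ : Finset ℕ}
    {ι : Type} [Fintype ι] {p : ι → ℕ} (hp : Function.Injective p)
    (hR : Rich M (2 * V₀) S₀ (univ.image p)) {c : ℕ} (hc : c.Coprime 28) (P : ι → Prop)
    [DecidablePred P] (hP : ∀ i, p i % 28 = c % 28 → P i) {n : ℕ} (hn : n ≤ S₀.card + 1) :
    V₀ * (n + 1) ≤ (univ.filter P).card := by
  obtain ⟨a, ha, hac, hacc⟩ := exists_cls hM0 h28 hc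
  have h1 := hR a ha hac
  rw [Finset.filter_image, Finset.card_image_of_injective _ hp] at h1
  have h2 : (univ.filter fun i => p i % M = a).card ≤ (univ.filter P).card := by
    refine card_le_card fun i hi => ?_
    rw [mem_filter] at hi ⊢
    refine ⟨hi.1, hP i ?_⟩
    rw [← Nat.mod_mod_of_dvd (p i) h28, hi.2, hacc]
  refine le_trans ?_ (h1.trans h2)
  calc V₀ * (n + 1) ≤ V₀ * (S₀.card + 1 + 1) := Nat.mul_le_mul_left _ (by omega)
    _ ≤ V₀ * (2 * (S₀.card + 1)) := Nat.mul_le_mul_left _ (by omega)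
    _ = 2 * V₀ * (S₀.card + 1) := by ring

/-! ### the setting -/

theorem stg {M V₀ : ℕ} (hM : 8 ∣ M) (h7M : 7 ∣ M) (hM0 : 0 < M) {t : Bool} {r s : ZMod 2}
    {K : Finset ℕ} (hts : t = false → s = 0) (htr : t = true → r ≠ 0 ∨ s ≠ 0)
    (hK : ∀ a ∈ K, a % 4 = if s = 0 then 3 else 1)
    (hK7 : ∀ a ∈ K, a % 7 = 0 ∨ a % 7 = 3 ∨ a % 7 = 5 ∨ a % 7 = 6) (ι : Type) [Fintype ι]
    [LinearOrder ι] (S₀ : Finset ℕ) (p : ι → ℕ) (hS₀ : ∀ v ∈ S₀, Po v)
    (hp : ∀ i, Po (p i) ∧ p i ∉ S₀ ∧ (p i).Coprime M) (hpi : Function.Injective p)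
    (hpK : ((∏ v ∈ S₀, v) * ∏ i, p i) % M ∈ K) (hN : Nd M S₀ (univ.image p))
    (hR : Rich M (2 * V₀) S₀ (univ.image p)) :
    Stg (Vt t S₀ : Finset ℕ) ι (wd r (rr t S₀ p)) (ud s (rr t S₀ p)) (eR r s (rr t S₀ p))
      (NR r s (rr t S₀ p)) V₀ := by
  have h2S : 2 ∉ S₀ := fun h => (hS₀ 2 h).2 rfl
  have ht : ∀ v ∈ Vt t S₀, v = 2 → t = true := by
    intro v hv hv2
    rcases mem_Vt.1 hv with h | h
    · exact h.1
    · exact absurd (hv2 ▸ h) h2S
  set r₀ := rr t S₀ p with hr₀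
  have hrp : ∀ i, (r₀ i).Prime := by
    rintro (v | k)
    · rcases mem_Vt.1 v.2 with h | h
      · show (v : ℕ).Prime
        rw [h.2]
        exact Nat.prime_two
      · exact (hS₀ _ h).1
    · exact (hp k).1.1
  have hrinj : Function.Injective r₀ := rr_inj t hpi (fun i => (hp i).2.1) fun i => (hp i).1.2
  have hur : ∀ k : ι, ud s r₀ (Sum.inr k) = uu (p k) := by
    intro k
    exact if_neg (hp k).1.2
  have h4M : (4 : ℕ) ∣ M := Dvd.dvd.trans (by norm_num) hM
  have h28 : 28 ∣ M := by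
    have : (28 : ℕ) = 4 * 7 := by norm_num
    rw [this]
    exact Nat.Coprime.mul_dvd_of_dvd_of_dvd (by norm_num) h4M h7M
  have hp7 : ∀ k : ι, p k ≠ 7 := by
    intro k h
    have h1 := (hp k).2.2
    rw [h] at h1
    have h2 := Nat.Coprime.eq_one_of_dvd h1 h7M
    omega
  have her : ∀ k : ι, eR r s r₀ (Sum.inr k) = nr 7 (p k) := by
    intro k
    exact if_neg (hp7 k)
  have d1 : Fintype.card (Vt t S₀ : Finset ℕ) ≤ S₀.card + 1 := by
    rw [Fintype.card_coe]
    exact (card_le_card (Vt_sub t S₀)).trans (card_insert_le _ _)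
  refine ⟨fun k => if_neg (hp k).1.2, ?_, fun i j hij => rec_NR r s hrinj hrp i j hij, ?_, ?_, ?_,
    ?_, ?_⟩
  · -- hu
    rw [Fintype.sum_sum_type]
    have a1 : ∑ i, ud s r₀ (Sum.inr i : (Vt t S₀ : Finset ℕ) ⊕ ι) = ∑ i, uu (p i) :=
      sum_congr rfl fun i _ => hur i
    have a2 : ∑ v : (Vt t S₀ : Finset ℕ), ud s r₀ (Sum.inl v : (Vt t S₀ : Finset ℕ) ⊕ ι) =
        ∑ x ∈ Vt t S₀, if x = 2 then s else uu x := by
      rw [← Finset.sum_coe_sort (Vt t S₀)]
      rfl
    have a3 : ∑ x ∈ S₀, (if x = 2 then s else uu x) = ∑ x ∈ S₀, uu x :=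
      sum_congr rfl fun x hx => if_neg (hS₀ x hx).2
    have a4 : ∑ x ∈ Vt t S₀, (if x = 2 then s else uu x) = s + ∑ x ∈ S₀, uu x := by
      cases t with
      | true =>
        show ∑ x ∈ insert 2 S₀, (if x = 2 then s else uu x) = s + ∑ x ∈ S₀, uu x
        rw [sum_insert h2S, a3, if_pos rfl]
      | false =>
        show ∑ x ∈ S₀, (if x = 2 then s else uu x) = s + ∑ x ∈ S₀, uu x
        rw [a3, hts rfl, zero_add]
    have a5 : ∑ i, uu (p i) = ∑ x ∈ univ.image p, uu x :=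
      (sum_image fun i _ j _ h => hpi h).symm
    have hdis : Disjoint S₀ (univ.image p) := by
      rw [Finset.disjoint_left]
      intro x hx hx'
      obtain ⟨i, -, rfl⟩ := mem_image.1 hx'
      exact (hp i).2.1 hx
    have a6 : ∑ x ∈ S₀ ∪ univ.image p, uu x = ∑ x ∈ S₀, uu x + ∑ x ∈ univ.image p, uu x :=
      sum_union hdis
    have a7 : ∏ x ∈ S₀ ∪ univ.image p, x = (∏ v ∈ S₀, v) * ∏ i, p i := by
      rw [prod_union hdis, prod_image fun i _ j _ h => hpi h]
    have a8 := Pool.Agent.N916.GB.sum_uu (S₀ ∪ univ.image p) (by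
      intro x hx
      rcases mem_union.1 hx with h | h
      · exact hS₀ x h
      · obtain ⟨i, -, rfl⟩ := mem_image.1 h
        exact (hp i).1)
    rw [a7] at a8
    have a9 := hK _ hpK
    rw [Nat.mod_mod_of_dvd _ h4M, a8, a6] at a9
    rw [a1, a2, a4, a5]
    rcases z2 s with hs | hs <;> rcases z2 (∑ x ∈ S₀, uu x + ∑ x ∈ univ.image p, uu x) with h | h
    · rw [h, hs, if_pos rfl, if_pos rfl] at a9
      omega
    · rw [hs, zero_add, h]
    · rw [hs, add_assoc, h, add_zero]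
    · rw [h, hs, if_neg (by decide), if_neg (by decide)] at a9
      omega
  · -- hv
    intro v hv
    have b1 : ∀ v' : (Vt t S₀ : Finset ℕ), wd r r₀ (Sum.inl v') = 0 → (v' : ℕ) = 2 ∧ r = 0 := by
      intro v' hv'
      have hv'' : (if (v' : ℕ) = 2 then r else 1) = 0 := hv'
      by_cases h : (v' : ℕ) = 2
      · rw [if_pos h] at hv''
        exact ⟨h, hv''⟩
      · rw [if_neg h] at hv''
        exact absurd hv'' (by decide)
    obtain ⟨b2, b3⟩ := b1 v hv
    refine ⟨?_, fun v' hv' => Subtype.ext (b2.trans (b1 v' hv').1.symm)⟩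
    have b4 : s = 1 := by
      rcases z2 s with h | h
      · exact absurd (htr (ht v v.2 b2)) (by
          rintro (h' | h')
          · exact h' b3
          · exact h' h)
      · exact h
    show (if (v : ℕ) = 2 then s else uu v) = 1
    rw [if_pos b2, b4]
  · -- nd
    intro b s' hbs
    set w : ℕ → ZMod 2 := fun n => if h : n ∈ Vt t S₀ then b ⟨n, h⟩ else 0 with hw
    have hw1 : ∀ v : (Vt t S₀ : Finset ℕ), w v = b v := fun v => by
      rw [hw]
      exact dif_pos v.2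
    have hw2 : ∀ n, n ∉ Vt t S₀ → w n = 0 := fun n hn => by
      rw [hw]
      exact dif_neg hn
    have hsub : Vt t S₀ ⊆ Bs M S₀ := (Vt_sub t S₀).trans (sub_Bs hM hM0 S₀)
    obtain ⟨x, hx, hx2⟩ := hN w s' (by
      rcases hbs with ⟨v, hv⟩ | h
      · exact Or.inl ⟨v, hsub v.2, by rw [hw1]; exact hv⟩
      · exact Or.inr h)
    obtain ⟨k, -, rfl⟩ := mem_image.1 hx
    refine ⟨k, ?_⟩
    rw [hur]
    intro h0
    apply hx2
    refine Eq.trans ?_ h0
    congr 1
    have c2 : ∑ v ∈ Vt t S₀, w v * nr (p k) v = ∑ v ∈ Bs M S₀, w v * nr (p k) v :=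
      sum_subset hsub fun x _ hx => by rw [hw2 x hx, zero_mul]
    have c3 : ∑ v : (Vt t S₀ : Finset ℕ), b v * NR r s r₀ (Sum.inl v) (Sum.inr k) =
        ∑ v ∈ Vt t S₀, w v * nr (p k) v := by
      rw [← Finset.sum_coe_sort (Vt t S₀)]
      refine sum_congr rfl fun v _ => ?_
      rw [hw1]
      congr 1
      exact sy_ne r s (hp k).1.2
    exact c2.symm.trans c3.symm
  · -- rad
    intro δ _ y hy
    have hew : ∀ x, eR r s r₀ x * wd r r₀ x = eR r s r₀ x := by
      intro x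
      by_cases h : r₀ x = 2
      · have h1 : eR r s r₀ x = 0 := by
          unfold eR
          rw [h, if_neg (by norm_num), nr7]
          rfl
        rw [h1, zero_mul]
      · have h1 : wd r r₀ x = 1 := if_neg h
        rw [h1, mul_one]
    refine rad_lem _ _ _ hew ?_
    by_cases h7 : 7 ∈ S₀
    · right
      have hv0 : 7 ∈ Vt t S₀ := mem_Vt.2 (Or.inr h7)
      have h1 := hy (Sum.inl ⟨7, hv0⟩)
      have hpt1 : ∀ q : (Vt t S₀ : Finset ℕ) ⊕ ι, pt (NR r s r₀) δ q (Sum.inl ⟨7, hv0⟩) = nr 7 (r₀ q) := by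
        intro q
        have : pt (NR r s r₀) δ q (Sum.inl ⟨7, hv0⟩) = NR r s r₀ q (Sum.inl ⟨7, hv0⟩) := by
          cases q <;> rfl
        rw [this]
        exact sy_ne r s (show (7 : ℕ) ≠ 2 by norm_num)
      have hpt2 : ∀ q : (Vt t S₀ : Finset ℕ) ⊕ ι, pt (NR r s r₀) δ (Sum.inl ⟨7, hv0⟩) q = sy r s 7 (r₀ q) := by
        intro q
        cases q <;> rfl
      simp_rw [hpt1, hpt2] at h1
      rw [sum_add_distrib, ← mul_sum] at h1
      have h2 : ∑ x, eR r s r₀ x * y x = ∑ x, y x * nr 7 (r₀ x) +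
          y (Sum.inl ⟨7, hv0⟩) * ∑ x, sy r s 7 (r₀ x) := by
        have h3 : ∀ x, eR r s r₀ x * y x = y x * nr 7 (r₀ x) +
            (if x = Sum.inl ⟨7, hv0⟩ then y (Sum.inl ⟨7, hv0⟩) * ∑ x, sy r s 7 (r₀ x) else 0) := by
          intro x
          by_cases hx : x = Sum.inl ⟨7, hv0⟩
          · rw [if_pos hx, hx]
            have h4 : r₀ (Sum.inl ⟨7, hv0⟩) = 7 := rfl
            unfold eR
            rw [h4, if_pos rfl, nr_self, mul_zero, zero_add, mul_comm]
          · rw [if_neg hx, add_zero, mul_comm]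
            congr 1
            unfold eR
            rw [if_neg]
            intro h4
            exact hx (hrinj (h4.trans rfl))
        simp_rw [h3]
        rw [sum_add_distrib, Finset.sum_ite_eq' univ, if_pos (mem_univ _)]
      rw [h2]
      exact h1
    · left
      have hne : ∀ x, r₀ x ≠ 7 := by
        rintro (v | k)
        · intro h
          have hv : (v : ℕ) = 7 := h
          rcases mem_Vt.1 v.2 with h' | h'
          · omega
          · exact h7 (hv ▸ h')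
        · exact hp7 k
      have h1 : ∀ x, eR r s r₀ x = nr 7 (r₀ x) := fun x => if_neg (hne x)
      simp_rw [h1]
      rw [Fintype.sum_sum_type]
      have a1 : ∑ v : (Vt t S₀ : Finset ℕ), nr 7 (r₀ (Sum.inl v)) = ∑ x ∈ Vt t S₀, nr 7 x := by
        rw [← Finset.sum_coe_sort (Vt t S₀)]
        rfl
      have a2 : ∑ x ∈ Vt t S₀, nr 7 x = ∑ x ∈ S₀, nr 7 x := by
        cases t with
        | true =>
          show ∑ x ∈ insert 2 S₀, nr 7 x = ∑ x ∈ S₀, nr 7 x
          rw [sum_insert h2S, nr7 2]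
          simp
        | false => rfl
      have a5 : ∑ i, nr 7 (r₀ (Sum.inr i)) = ∑ x ∈ univ.image p, nr 7 x :=
        (sum_image fun i _ j _ h => hpi h).symm
      have hdis : Disjoint S₀ (univ.image p) := by
        rw [Finset.disjoint_left]
        intro x hx hx'
        obtain ⟨i, -, rfl⟩ := mem_image.1 hx'
        exact (hp i).2.1 hx
      have a6 : ∑ x ∈ S₀ ∪ univ.image p, nr 7 x = ∑ x ∈ S₀, nr 7 x + ∑ x ∈ univ.image p, nr 7 x :=
        sum_union hdis
      have a7 : ∏ x ∈ S₀ ∪ univ.image p, x = (∏ v ∈ S₀, v) * ∏ i, p i := by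
        rw [prod_union hdis, prod_image fun i _ j _ h => hpi h]
      have a8 := nr7_prod (S₀ ∪ univ.image p) (by
        intro x hx h
        have hx7 : x = 7 := by
          have hxp : x.Prime := by
            rcases mem_union.1 hx with h | h
            · exact (hS₀ x h).1
            · obtain ⟨i, -, rfl⟩ := mem_image.1 h
              exact (hp i).1.1
          exact ((Nat.prime_dvd_prime_iff_eq Nat.prime_seven hxp).1 (Nat.dvd_of_mod_eq_zero h)).symm
        rcases mem_union.1 hx with h | h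
        · exact h7 (hx7 ▸ h)
        · obtain ⟨i, -, rfl⟩ := mem_image.1 h
          exact hp7 i hx7)
      rw [a1, a2, a5, ← a6, ← a8.2, nr7]
      have a9 := hK7 _ hpK
      rw [Nat.mod_mod_of_dvd _ h7M, ← a7] at a9
      rw [if_pos (a9.resolve_left a8.1)]
  · -- c1
    refine rich_cls h28 hM0 hpi hR (c := 15) (by norm_num) _ ?_ d1
    intro i hi
    rw [hur, her, nr7]
    unfold uu
    have h1 : p i % 4 = 3 := by omega
    have h2 : p i % 7 = 1 := by omega
    rw [if_pos h1, h2]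
    exact ⟨rfl, if_neg (by norm_num)⟩
  · -- c2
    refine rich_cls h28 hM0 hpi hR (c := 17) (by norm_num) _ ?_ d1
    intro i hi
    rw [hur, her, nr7]
    unfold uu
    have h1 : p i % 4 = 1 := by omega
    have h2 : p i % 7 = 3 := by omega
    rw [h1, h2]
    exact ⟨rfl, if_pos (Or.inl rfl)⟩

/-- SLX-RED -/
theorem t_RED : S_RED := by
  intro hLAJ M hM h7M hM0 t r s K hts htr hK hK7 a b ε hε
  obtain ⟨V₀, hV₀⟩ := hLAJ a b ε hε
  refine ⟨2 * V₀, ?_⟩
  intro ι _ _ S₀ p hS₀ hp hpi hpK hN hR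
  have h2 := hV₀ (Vt t S₀ : Finset ℕ) ι _ _ _ _
    (stg hM h7M hM0 hts htr hK hK7 ι S₀ p hS₀ hp hpi hpK hN hR)
  set r₀ := rr t S₀ p with hr₀
  have h4M : (4 : ℕ) ∣ M := Dvd.dvd.trans (by norm_num) hM
  refine ⟨fun σ => Crit (pt (NR r s r₀) (sx (σ + sgm p))) (eR r s r₀) a b, ?_, ?_⟩
  · intro q hqi hq
    rw [Gj_iff t r s a b (rr_inj t hqi (fun i => (hq i).2.1) fun i => (hq i).1.2) (rr_im t)]
    have hmod4 : ∀ i, q i % 4 = p i % 4 := by
      intro i
      rw [← Nat.mod_mod_of_dvd (q i) h4M, (hq i).2.2.1, Nat.mod_mod_of_dvd (p i) h4M]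
    have huu : ∀ i, uu (q i) = uu (p i) := fun i => uu_mod hM (hq i).2.2.1
    have hqc : ∀ i, (q i).Coprime M := by
      intro i
      have h1 := (hp i).2.2
      rw [Nat.coprime_comm, Nat.Coprime, Nat.gcd_rec] at h1 ⊢
      rw [(hq i).2.2.1]
      exact h1
    have a0 := two_tuples (S₀ := S₀) (τ := fun i => p i % 4) t r s hqi hpi (fun i => (hq i).1)
      (fun i => (hp i).1) hmod4 (fun i => rfl) (fun i => by
        have hv : ∀ v ∈ Bs M S₀, nr (q i) v = nr (p i) v :=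
          nr_Bs hM (hq i).1 (hp i).1 (hqc i) (hp i).2.2 (hq i).2.2.1 (hq i).2.2.2
        refine Prod.ext ?_ ?_
        · funext v
          exact hv v (sub_Bs hM hM0 S₀ v.2)
        · funext v
          show nr v (q i) = nr v (p i)
          have hne1 : q i ≠ v := fun h => (hq i).2.1 (h ▸ v.2)
          have hne2 : p i ≠ v := fun h => (hp i).2.1 (h ▸ v.2)
          rw [nr_rec (hq i).1.1 (hq i).1.2 (hS₀ v v.2).1 (hS₀ v v.2).2 hne1,
            nr_rec (hp i).1.1 (hp i).1.2 (hS₀ v v.2).1 (hS₀ v v.2).2 hne2, huu,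
            hv v (sub_Bs hM hM0 S₀ (mem_insert_of_mem v.2))])
    have hne7 : ∀ n : ℕ, n.Coprime M → n ≠ 7 := by
      intro n h1 h
      rw [h] at h1
      have h2 := Nat.Coprime.eq_one_of_dvd h1 h7M
      omega
    have hmod7 : ∀ i, q i % 7 = p i % 7 := by
      intro i
      rw [← Nat.mod_mod_of_dvd (q i) h7M, (hq i).2.2.1, Nat.mod_mod_of_dvd (p i) h7M]
    have a1 : eR r s (rr t S₀ q) = eR r s r₀ := by
      funext x
      rcases x with v | k
      · show (if (v : ℕ) = 7 then ∑ y, sy r s 7 (rr t S₀ q y) else nr 7 v) =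
          (if (v : ℕ) = 7 then ∑ y, sy r s 7 (rr t S₀ p y) else nr 7 v)
        have h3 : ∑ y, sy r s 7 (rr t S₀ q y) = ∑ y, sy r s 7 (rr t S₀ p y) := by
          refine sum_congr rfl fun y _ => ?_
          rcases y with v' | k
          · rfl
          · show sy r s 7 (q k) = sy r s 7 (p k)
            rw [sy_ne r s (hq k).1.2, sy_ne r s (hp k).1.2]
            exact nr_mod hM (hq k).1 (hp k).1 (hqc k) (hp k).2.2 Nat.prime_seven h7M (hq k).2.2.1
        rw [h3]
      · show (if q k = 7 then _ else nr 7 (q k)) = (if p k = 7 then _ else nr 7 (p k))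
        rw [if_neg (hne7 _ (hqc k)), if_neg (hne7 _ (hp k).2.2), nr7, nr7, hmod7]
    rw [a1]
    show Crit (NR r s (rr t S₀ q)) (eR r s r₀) a b ↔
      Crit (pt (NR r s r₀) (sx (sgm q + sgm p))) (eR r s r₀) a b
    rw [a0]
  · have hQc : (univ.filter fun σ : ps ι → ZMod 2 =>
          Crit (pt (NR r s r₀) (sx (σ + sgm p))) (eR r s r₀) a b).card =
        (univ.filter fun σ : ps ι → ZMod 2 =>
          Crit (pt (NR r s r₀) (sx σ)) (eR r s r₀) a b).card := by
      refine card_bij (fun σ _ => σ + sgm p) ?_ ?_ ?_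
      · intro σ hσ
        rw [mem_filter] at hσ ⊢
        exact ⟨mem_univ _, hσ.2⟩
      · intro σ _ σ' _ h
        exact add_right_cancel h
      · intro σ hσ
        refine ⟨σ - sgm p, ?_, sub_add_cancel _ _⟩
        rw [mem_filter] at hσ ⊢
        refine ⟨mem_univ _, ?_⟩
        simp only [sub_add_cancel]
        exact hσ.2
    rw [hQc]
    exact h2

end Pool.Agent.N327.SLX
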